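import Mathlib

/-!
# Hitting probabilities of the simple random walk: partial sums of ballot numbers (helper30)
-/

set_option autoImplicit false

namespace Pool.Agent.W5h30.MED

open Finset

/-- `2 ^ (-(2 L + m)) ∑_{j = 1}^{m} C (2 L + m, L + j)` -/
noncomputable def Q (m L : ℕ) : ℝ := (∑ j ∈ range m, ((2 * L + m).choose (L + 1 + j) : ℝ)) / 2 ^ (2 * L + m)

lemma Q_zero (m : ℕ) : Q m 0 = 1 - 1 / 2 ^ m := by
  unfold Q
  have h : (∑ j ∈ range m, ((m.choose (1 + j)) : ℝ)) = 2 ^ m - 1 := by
    have h1 : (∑ j ∈ range (m + 1), (m.choose j : ℝ)) = 2 ^ m := by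
      exact_mod_cast Nat.sum_range_choose m
    rw [sum_range_succ'] at h1
    simp only [Nat.choose_zero_right, Nat.cast_one] at h1
    have h2 : (∑ j ∈ range m, ((m.choose (1 + j)) : ℝ)) = ∑ j ∈ range m, ((m.choose (j + 1)) : ℝ) :=
      sum_congr rfl fun j _ => by rw [add_comm]
    rw [h2]
    linarith
  simp only [Nat.mul_zero, Nat.zero_add]
  rw [h, sub_div, div_self (by positivity)]

lemma ballot (m L : ℕ) : ((2 * L + m).choose (L + 1) : ℝ) - (if L = 0 then 0 else ((2 * L + m).choose (L - 1) : ℝ)) =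
    (m : ℝ) / (L + 1) * ((2 * L + m + 1).choose L : ℝ) := by
  have h1 : ((2 * L + m + 1).choose (L + 1) : ℝ) = (2 * L + m).choose L + (2 * L + m).choose (L + 1) := by
    rw [Nat.choose_succ_succ]; push_cast; ring
  have h2 : ((2 * L + m + 1).choose L : ℝ) = (if L = 0 then 0 else ((2 * L + m).choose (L - 1) : ℝ)) +
      (2 * L + m).choose L := by
    cases L with
    | zero => simp
    | succ L =>
      rw [Nat.choose_succ_succ]
      simp
  have h3 : ((2 * L + m + 1).choose (L + 1) : ℝ) * (L + 1) = (2 * L + m + 1).choose L * (L + m + 1) := by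
    have := Nat.choose_succ_right_eq (2 * L + m + 1) L
    have h4 : 2 * L + m + 1 - L = L + m + 1 := by omega
    rw [h4] at this
    exact_mod_cast this
  have hL : (L : ℝ) + 1 ≠ 0 := by positivity
  have h5 : ((2 * L + m).choose (L + 1) : ℝ) - (if L = 0 then 0 else ((2 * L + m).choose (L - 1) : ℝ)) =
      (2 * L + m + 1).choose (L + 1) - (2 * L + m + 1).choose L := by
    rw [h1, h2]; ring
  rw [h5, div_mul_eq_mul_div, eq_div_iff hL, sub_mul, h3]
  ring

lemma Q_succ (m L : ℕ) : Q m L - Q m (L + 1) =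
    (m : ℝ) / (L + 1) * ((2 * L + m + 1).choose L : ℝ) / 2 ^ (2 * L + m + 2) := by
  set N := 2 * L + m with hN
  have e1 : 2 * (L + 1) + m = N + 2 := by omega
  have hp : ∀ j, ((N + 2).choose (L + 1 + 1 + j) : ℝ) = (N.choose (L + 1 + j + 1) : ℝ) +
      2 * (N.choose (L + 1 + j) : ℝ) + (N.choose (L + j) : ℝ) := by
    intro j
    have a1 : (N + 2).choose (L + 1 + 1 + j) = (N + 1).choose (L + 1 + j) + (N + 1).choose (L + 1 + j + 1) := by
      rw [show L + 1 + 1 + j = (L + 1 + j) + 1 by ring, Nat.choose_succ_succ]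
    have a2 : (N + 1).choose (L + 1 + j) = N.choose (L + j) + N.choose (L + 1 + j) := by
      rw [show L + 1 + j = (L + j) + 1 by ring, Nat.choose_succ_succ]
    have a3 : (N + 1).choose (L + 1 + j + 1) = N.choose (L + 1 + j) + N.choose (L + 1 + j + 1) := by
      rw [Nat.choose_succ_succ]
    rw [a1, a2, a3]
    push_cast
    ring
  have hs : (∑ j ∈ range m, ((N + 2).choose (L + 1 + 1 + j) : ℝ)) =
      4 * (∑ j ∈ range m, (N.choose (L + 1 + j) : ℝ)) + (N.choose (L + 1 + m) : ℝ) - N.choose (L + 1) +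
        N.choose L - N.choose (L + m) := by
    rw [sum_congr rfl fun j _ => hp j, sum_add_distrib, sum_add_distrib, ← mul_sum]
    have b1 : (∑ j ∈ range m, (N.choose (L + 1 + j + 1) : ℝ)) =
        (∑ j ∈ range m, (N.choose (L + 1 + j) : ℝ)) + N.choose (L + 1 + m) - N.choose (L + 1) := by
      have c1 := sum_range_succ (fun j => (N.choose (L + 1 + j) : ℝ)) m
      have c2 := sum_range_succ' (fun j => (N.choose (L + 1 + j) : ℝ)) m
      simp only [add_zero] at c2
      have c3 : ∀ j, L + 1 + (j + 1) = L + 1 + j + 1 := fun j => by ring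
      simp only [c3] at c2
      linarith
    have b2 : (∑ j ∈ range m, (N.choose (L + j) : ℝ)) =
        (∑ j ∈ range m, (N.choose (L + 1 + j) : ℝ)) + N.choose L - N.choose (L + m) := by
      have c1 := sum_range_succ (fun j => (N.choose (L + j) : ℝ)) m
      have c2 := sum_range_succ' (fun j => (N.choose (L + j) : ℝ)) m
      simp only [add_zero] at c2
      have c4 : ∑ j ∈ range m, (N.choose (L + (j + 1)) : ℝ) = ∑ j ∈ range m, (N.choose (L + 1 + j) : ℝ) :=
        sum_congr rfl fun j _ => by rw [show L + (j + 1) = L + 1 + j by ring]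
      rw [c4] at c2
      linarith
    rw [b1, b2]
    ring
  have hsym1 : (N.choose (L + m) : ℝ) = N.choose L := by
    have : N.choose (L + m) = N.choose L := by
      rw [← Nat.choose_symm (by omega : L + m ≤ N)]
      congr 1
      omega
    exact_mod_cast this
  have hsym2 : (N.choose (L + 1 + m) : ℝ) = if L = 0 then 0 else (N.choose (L - 1) : ℝ) := by
    split_ifs with h
    · have : N.choose (L + 1 + m) = 0 := Nat.choose_eq_zero_of_lt (by omega)
      exact_mod_cast this
    · have : N.choose (L + 1 + m) = N.choose (L - 1) := by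
        rw [← Nat.choose_symm (by omega : L + 1 + m ≤ N)]
        congr 1
        omega
      exact_mod_cast this
  have hb := ballot m L
  rw [← hN] at hb
  have hQ1 : Q m (L + 1) = (∑ j ∈ range m, ((N + 2).choose (L + 1 + 1 + j) : ℝ)) / 2 ^ (N + 2) := by
    unfold Q
    rw [e1]
  have hQ0 : Q m L = (∑ j ∈ range m, (N.choose (L + 1 + j) : ℝ)) * 4 / 2 ^ (N + 2) := by
    have h4 : (2 : ℝ) ^ (N + 2) = 2 ^ N * 4 := by rw [pow_add]; norm_num
    rw [h4, mul_div_mul_right _ _ (by norm_num : (4 : ℝ) ≠ 0)]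
    rfl
  rw [hQ1, hQ0, hs, hsym1, hsym2, ← sub_div, ← hb]
  congr 1
  ring

/-- the partial sums of the ballot series -/
lemma ballot_sum (m L : ℕ) : (1 : ℝ) / 2 ^ m + ∑ i ∈ range L,
    (m : ℝ) / (i + 1) * ((2 * i + m + 1).choose i : ℝ) / 2 ^ (2 * i + m + 2) = 1 - Q m L := by
  induction L with
  | zero => rw [Q_zero]; simp
  | succ L ih =>
    rw [sum_range_succ, ← add_assoc, ih]
    have := Q_succ m L
    linarith

end Pool.Agent.W5h30.MED
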