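import Mathlib
import Pool.Agent.W93.CU1
import Pool.Agent.W5h30.MED.A

/-!
# All lower tails of the measures attached to a word (helper30)
-/

set_option autoImplicit false

namespace Pool.Agent.W5h30.MED

open Finset W93.CU

/-- the number of distinct subsequences is at most the number of all words -/
lemma N_le (w : List Bool) : (∀ i j, c1 w (i + 1) j ≤ (i + j).choose i) ∧ (∀ i j, c0 w i (j + 1) ≤ (i + j).choose i) ∧
    (∀ i j, N w i j ≤ (i + j).choose i) := by
  induction w with
  | nil =>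
    refine ⟨fun i j => by simp, fun i j => by simp, fun i j => ?_⟩
    unfold N
    rw [c1_nil, c0_nil]
    split_ifs with h
    · simp [h.1, h.2]
    · simp
  | cons b w ih =>
    obtain ⟨h1, h0, hN⟩ := ih
    have h : (∀ i j, c1 (b :: w) (i + 1) j ≤ (i + j).choose i) ∧
        (∀ i j, c0 (b :: w) i (j + 1) ≤ (i + j).choose i) := by
      cases b with
      | true => exact ⟨fun i j => by simpa using hN i j, fun i j => by simpa using h0 i j⟩
      | false => exact ⟨fun i j => by simpa using h1 i j, fun i j => by simpa using hN i j⟩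
    refine ⟨h.1, h.2, ?_⟩
    rintro i j
    unfold N
    cases i with
    | zero =>
      cases j with
      | zero => simp [c1_zero, c0_zero]
      | succ j =>
        rw [c1_zero]
        have := h.2 0 j
        simp at this ⊢
        exact this
    | succ i =>
      cases j with
      | zero =>
        rw [c0_zero]
        have := h.1 i 0
        simp at this ⊢
        exact this
      | succ j =>
        have e1 := h.1 i (j + 1)
        have e2 := h.2 (i + 1) j
        have e3 : (i + 1 + (j + 1)).choose (i + 1) = (i + (j + 1)).choose i + (i + 1 + j).choose (i + 1) := by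
          rw [show i + 1 + (j + 1) = (i + 1 + j) + 1 by ring, Nat.choose_succ_succ,
            show i + 1 + j = i + (j + 1) by ring]
        rw [e3, if_neg (by omega)]
        omega

lemma G_neg (L : ℕ) (f : ℕ → ℕ → ℕ) (m : ℕ) (hf : ∀ i j, L ≤ j → f i j = 0) :
    G L f (-(m : ℤ)) = ∑ i ∈ range L, (1 / 2 : ℝ) ^ (2 * i + m) * f i (i + m) := by
  unfold G
  refine Finset.sum_congr rfl fun i hi => ?_
  by_cases h : i + m < L
  · rw [Finset.sum_eq_single (i + m)]
    · unfold wt
      rw [if_pos (by push_cast; ring)]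
      rw [show i + (i + m) = 2 * i + m by ring]
    · intro j _ hj
      unfold wt
      rw [if_neg (by omega)]; simp
    · intro h'; exact absurd (by simpa using h) h'
  · rw [hf i (i + m) (by omega)]
    simp only [Nat.cast_zero, mul_zero]
    refine Finset.sum_eq_zero fun j hj => ?_
    have : j < L := by simpa using hj
    unfold wt
    rw [if_neg (by omega)]; simp

lemma tail_gen (L : ℕ) (w : List Bool) (hw : w.length ≤ L) (m : ℕ) (hm : 1 ≤ m) :
    (tl one0 one0 (true :: w)).1 (-(m : ℤ)) =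
      1 - (G (L + 1) (N w) (-(m : ℤ)) - G (L + 1) (N w) (-((m + 1 : ℕ) : ℤ))) / 2 := by
  have a := (tl_formula L w hw (-(m : ℤ) - 1)).1
  have b := (tl_formula L w hw (-(m : ℤ) + 1)).2
  have e : (tl one0 one0 (true :: w)).1 (-(m : ℤ)) =
      (tl one0 one0 w).1 (-(m : ℤ) - 1) / 2 + (tl one0 one0 w).2 (-(m : ℤ) + 1) / 2 := rfl
  rw [e, a, b, G_N, G_N]
  have i1 : one0 (-(m : ℤ) - 1) = 1 := by unfold one0; rw [if_pos (by omega)]
  have i2 : one0 (-(m : ℤ) + 1) = 1 := by unfold one0; rw [if_pos (by omega)]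
  rw [i1, i2, if_neg (by omega), if_neg (by push_cast; omega)]
  rw [show -(m : ℤ) - 1 + 1 = -(m : ℤ) by ring, show -(m : ℤ) + 1 - 2 = -(m : ℤ) - 1 by ring,
    show -(m : ℤ) + 1 - 1 = -(m : ℤ) by ring, show -((m + 1 : ℕ) : ℤ) = -(m : ℤ) - 1 by push_cast; ring]
  ring

theorem tail_word (L : ℕ) (w : List Bool) (hw : w.length ≤ L) (m : ℕ) :
    1 / 2 + Q m L / 2 ≤ (tl one0 one0 (true :: w)).1 (-(m : ℤ)) := by
  rcases Nat.eq_zero_or_pos m with rfl | hm
  · have : Q 0 L = 0 := by simp [Q]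
    rw [this]
    simpa using median_odd w
  · rw [tail_gen L w hw m hm]
    have hs := (supp w).2
    rw [G_neg (L + 1) (N w) m (fun i j hj => hs i j (by omega)),
      G_neg (L + 1) (N w) (m + 1) (fun i j hj => hs i j (by omega))]
    rw [sum_range_succ' (fun i => (1 / 2 : ℝ) ^ (2 * i + m) * (N w i (i + m) : ℝ)) L,
      sum_range_succ (fun i => (1 / 2 : ℝ) ^ (2 * i + (m + 1)) * (N w i (i + (m + 1)) : ℝ)) L]
    have hterm : ∀ i ∈ range L, (1 / 2 : ℝ) ^ (2 * (i + 1) + m) * (N w (i + 1) (i + 1 + m) : ℝ) -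
        (1 / 2 : ℝ) ^ (2 * i + (m + 1)) * (N w i (i + (m + 1)) : ℝ) ≤
        (m : ℝ) / (i + 1) * ((2 * i + m + 1).choose i : ℝ) / 2 ^ (2 * i + m + 2) := by
      intro i _
      have hd : ((i : ℝ) + 1) * (N w (i + 1) (i + 1 + m) : ℝ) ≤ (2 * ((i : ℝ) + 1) + m) * (N w i (i + 1 + m) : ℝ) := by
        have := N_del w i (i + 1 + m)
        have h' : (((i + 1) * N w (i + 1) (i + 1 + m) : ℕ) : ℝ) ≤ (((i + 1 + (i + 1 + m)) * N w i (i + 1 + m) : ℕ) : ℝ) := by
          exact_mod_cast this
        push_cast at h'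
        linarith
      have hN : (N w i (i + 1 + m) : ℝ) ≤ ((2 * i + m + 1).choose i : ℝ) := by
        have := (N_le w).2.2 i (i + 1 + m)
        rw [show i + (i + 1 + m) = 2 * i + m + 1 by ring] at this
        exact_mod_cast this
      have hi : (0 : ℝ) < (i : ℝ) + 1 := by positivity
      have e1 : (1 / 2 : ℝ) ^ (2 * i + (m + 1)) = 2 * (1 / 2) ^ (2 * i + m + 2) := by
        rw [show 2 * i + m + 2 = (2 * i + (m + 1)) + 1 by ring, pow_succ]; ring
      have e2 : (1 / 2 : ℝ) ^ (2 * (i + 1) + m) = (1 / 2) ^ (2 * i + m + 2) := by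
        rw [show 2 * (i + 1) + m = 2 * i + m + 2 by ring]
      have e3 : (1 / 2 : ℝ) ^ (2 * i + m + 2) = 1 / 2 ^ (2 * i + m + 2) := by rw [div_pow, one_pow]
      rw [e1, e2, e3, show i + (m + 1) = i + 1 + m by ring]
      have h2 : (N w (i + 1) (i + 1 + m) : ℝ) - 2 * (N w i (i + 1 + m) : ℝ) ≤
          (m : ℝ) / (i + 1) * ((2 * i + m + 1).choose i : ℝ) := by
        have h3 : (N w (i + 1) (i + 1 + m) : ℝ) - 2 * (N w i (i + 1 + m) : ℝ) ≤
            (m : ℝ) / (i + 1) * (N w i (i + 1 + m) : ℝ) := by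
          rw [div_mul_eq_mul_div, le_div_iff₀ hi]
          linarith
        refine h3.trans ?_
        gcongr
      have h4 : (0 : ℝ) < 1 / 2 ^ (2 * i + m + 2) := by positivity
      calc 1 / 2 ^ (2 * i + m + 2) * (N w (i + 1) (i + 1 + m) : ℝ) -
            2 * (1 / 2 ^ (2 * i + m + 2)) * (N w i (i + 1 + m) : ℝ)
          = 1 / 2 ^ (2 * i + m + 2) * ((N w (i + 1) (i + 1 + m) : ℝ) - 2 * (N w i (i + 1 + m) : ℝ)) := by ring
        _ ≤ 1 / 2 ^ (2 * i + m + 2) * ((m : ℝ) / (i + 1) * ((2 * i + m + 1).choose i : ℝ)) := by gcongr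
        _ = _ := by ring
    have hsum := sum_le_sum hterm
    rw [sum_sub_distrib] at hsum
    have hb := ballot_sum m L
    have hN0 : (1 / 2 : ℝ) ^ (2 * 0 + m) * (N w 0 (0 + m) : ℝ) ≤ 1 / 2 ^ m := by
      have h0 : (N w 0 m : ℝ) ≤ 1 := by
        have := (N_le w).2.2 0 m
        simp at this
        exact_mod_cast this
      rw [Nat.mul_zero, Nat.zero_add, div_pow, one_pow]
      calc 1 / 2 ^ m * (N w 0 m : ℝ) ≤ 1 / 2 ^ m * 1 := by gcongr
        _ = 1 / 2 ^ m := by ring
    have hlast : 0 ≤ (1 / 2 : ℝ) ^ (2 * L + (m + 1)) * (N w L (L + (m + 1)) : ℝ) := by positivity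
    linarith

end Pool.Agent.W5h30.MED
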