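import Mathlib
import Pool.Agent.W93.CU1
import Pool.Agent.W5h30.MED.B

/-!
# The measures `P_t` (helper30)
-/

set_option autoImplicit false

namespace Pool.Agent.W5h30.MED

open Finset W93.CU

/-- the measures `P_t`, `P_1 = δ_0`, `P_{2n} = P_n`, `P_{2n+1}(d) = (P_n(d-1) + P_{n+1}(d+1)) / 2` -/
noncomputable def P : ℕ → ℤ → ℝ
  | 0 => fun _ => 0
  | 1 => fun d => if d = 0 then 1 else 0
  | n + 2 =>
    if h : (n + 2) % 2 = 0 then P ((n + 2) / 2)
    else fun d => P ((n + 2) / 2) (d - 1) / 2 + P ((n + 2) / 2 + 1) (d + 1) / 2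
  termination_by n => n

lemma P_one (d : ℤ) : P 1 d = if d = 0 then 1 else 0 := by
  rw [P]

lemma P_even (n : ℕ) (hn : 1 ≤ n) (d : ℤ) : P (2 * n) d = P n d := by
  obtain ⟨m, rfl⟩ : ∃ m, n = m + 1 := ⟨n - 1, by omega⟩
  rw [show 2 * (m + 1) = 2 * m + 2 by ring, P, dif_pos (by omega)]
  congr 1
  omega

lemma P_odd (n : ℕ) (hn : 1 ≤ n) (d : ℤ) :
    P (2 * n + 1) d = P n (d - 1) / 2 + P (n + 1) (d + 1) / 2 := by
  obtain ⟨m, rfl⟩ : ∃ m, n = m + 1 := ⟨n - 1, by omega⟩
  rw [show 2 * (m + 1) + 1 = (2 * m + 1) + 2 by ring, P, dif_neg (by omega)]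
  have h1 : (2 * m + 1 + 2) / 2 = m + 1 := by omega
  rw [h1]

/-- the upper tails -/
noncomputable def T (t : ℕ) (k : ℤ) : ℝ := ∑' j : ℕ, P t (k + j)

lemma P_nonneg (t : ℕ) : ∀ d, 0 ≤ P t d := by
  induction t using Nat.strong_induction_on with
  | _ t ih =>
    intro d
    match t, ih with
    | 0, _ => rw [P]
    | 1, _ => rw [P_one]; split_ifs <;> norm_num
    | n + 2, ih =>
      rcases Nat.even_or_odd (n + 2) with ⟨m, hm⟩ | ⟨m, hm⟩
      · have h1 : n + 2 = 2 * m := by omega
        rw [h1, P_even m (by omega)]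
        exact ih m (by omega) d
      · rw [hm, P_odd m (by omega)]
        have := ih m (by omega) (d - 1)
        have := ih (m + 1) (by omega) (d + 1)
        positivity

lemma P_supp (t : ℕ) : ∀ d : ℤ, (t : ℤ) < |d| → P t d = 0 := by
  induction t using Nat.strong_induction_on with
  | _ t ih =>
    intro d hd
    match t, ih with
    | 0, _ => rw [P]
    | 1, _ =>
      rw [P_one, if_neg]
      rintro rfl
      simp at hd
    | n + 2, ih =>
      rcases Nat.even_or_odd (n + 2) with ⟨m, hm⟩ | ⟨m, hm⟩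
      · have h1 : n + 2 = 2 * m := by omega
        rw [h1, P_even m (by omega)]
        exact ih m (by omega) d (by omega)
      · rw [hm, P_odd m (by omega)]
        have a1 : |d| ≤ |d - 1| + 1 := by
          have := abs_add_le (d - 1) 1
          simpa using this
        have a2 : |d| ≤ |d + 1| + 1 := by
          have := abs_sub (d + 1) 1
          simpa using this
        rw [ih m (by omega) (d - 1) (by omega), ih (m + 1) (by omega) (d + 1) (by omega)]
        norm_num

lemma summable_T (t : ℕ) (k : ℤ) : Summable fun j : ℕ => P t (k + j) := by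
  apply summable_of_hasFiniteSupport
  apply (Set.finite_le_nat (t + k.natAbs)).subset
  intro j hj
  by_contra h
  apply hj
  apply P_supp
  rw [Set.mem_ofPred_eq, not_le] at h
  rw [lt_abs]
  left
  omega

lemma T_one (k : ℤ) : T 1 k = one0 k := by
  unfold T one0
  split_ifs with h
  · rw [tsum_eq_single (-k).toNat]
    · rw [P_one, if_pos (by omega)]
    · intro j hj
      rw [P_one, if_neg (by omega)]
  · have : ∀ j : ℕ, P 1 (k + j) = 0 := fun j => by rw [P_one, if_neg (by omega)]
    simp [this]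

lemma T_even (n : ℕ) (hn : 1 ≤ n) (k : ℤ) : T (2 * n) k = T n k := by
  unfold T
  exact tsum_congr fun j => P_even n hn _

lemma T_odd (n : ℕ) (hn : 1 ≤ n) (k : ℤ) : T (2 * n + 1) k = T n (k - 1) / 2 + T (n + 1) (k + 1) / 2 := by
  unfold T
  rw [← tsum_div_const, ← tsum_div_const, ← Summable.tsum_add ((summable_T n (k - 1)).div_const 2)
    ((summable_T (n + 1) (k + 1)).div_const 2)]
  refine tsum_congr fun j => ?_
  rw [P_odd n hn, show k - 1 + (j : ℤ) = k + j - 1 by ring, show k + 1 + (j : ℤ) = k + j + 1 by ring]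

/-- the integer with binary expansion `1` followed by the reversed word -/
def num : List Bool → ℕ
  | [] => 1
  | true :: w => 2 * num w + 1
  | false :: w => 2 * num w

lemma num_pos (w : List Bool) : 1 ≤ num w := by
  induction w with
  | nil => exact le_rfl
  | cons b w ih => cases b <;> simp only [num] <;> omega

lemma num_ge (w : List Bool) : 2 ^ w.length ≤ num w := by
  induction w with
  | nil => exact le_rfl
  | cons b w ih =>
    have : 2 ^ (b :: w).length = 2 * 2 ^ w.length := by rw [List.length_cons, pow_succ]; ring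
    rw [this]
    cases b <;> simp only [num] <;> omega

lemma exists_num (n : ℕ) (hn : 1 ≤ n) : ∃ w, num w = n := by
  induction n using Nat.strong_induction_on with
  | _ n ih =>
    rcases Nat.lt_or_ge n 2 with h | h
    · exact ⟨[], by simp only [num]; omega⟩
    · obtain ⟨w, hw⟩ := ih (n / 2) (by omega) (by omega)
      rcases Nat.even_or_odd' n with ⟨m, hm | hm⟩
      · exact ⟨false :: w, by simp only [num]; omega⟩
      · exact ⟨true :: w, by simp only [num]; omega⟩

lemma tl_eq (w : List Bool) : (∀ k, (tl one0 one0 w).1 k = T (num w) k) ∧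
    (∀ k, (tl one0 one0 w).2 k = T (num w + 1) k) := by
  induction w with
  | nil =>
    refine ⟨fun k => (T_one k).symm, fun k => ?_⟩
    show one0 k = T (1 + 1) k
    rw [show (1 + 1 : ℕ) = 2 * 1 by norm_num, T_even 1 le_rfl, T_one]
  | cons b w ih =>
    obtain ⟨h1, h2⟩ := ih
    have hc : ∀ k, (tl one0 one0 w).1 (k - 1) / 2 + (tl one0 one0 w).2 (k + 1) / 2 = T (2 * num w + 1) k := by
      intro k
      rw [h1, h2, T_odd _ (num_pos w)]
    cases b with
    | true =>
      refine ⟨fun k => hc k, fun k => ?_⟩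
      show (tl one0 one0 w).2 k = T (2 * num w + 1 + 1) k
      rw [h2, show 2 * num w + 1 + 1 = 2 * (num w + 1) by ring, T_even _ (by omega)]
    | false =>
      refine ⟨fun k => ?_, fun k => hc k⟩
      show (tl one0 one0 w).1 k = T (2 * num w) k
      rw [h1, T_even _ (num_pos w)]

theorem tails (t : ℕ) (ht : 1 ≤ t) (L : ℕ) (hL : t ≤ 2 ^ (L + 2)) (m : ℕ) :
    1 / 2 + Q m L / 2 ≤ T t (-(m : ℤ)) := by
  induction t using Nat.strong_induction_on with
  | _ t ih =>
    rcases Nat.even_or_odd' t with ⟨n, hn | hn⟩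
    · rw [hn, T_even n (by omega)]
      exact ih n (by omega) (by omega) (by omega)
    · rcases Nat.eq_zero_or_pos n with h0 | hpos
      · have ht1 : t = 1 := by omega
        rw [ht1, T_one]
        unfold one0
        rw [if_pos (by omega)]
        have := ballot_sum m L
        have h1 : 0 ≤ (1 : ℝ) / 2 ^ m + ∑ i ∈ range L,
            (m : ℝ) / (i + 1) * ((2 * i + m + 1).choose i : ℝ) / 2 ^ (2 * i + m + 2) := by positivity
        linarith
      · obtain ⟨w, hw⟩ := exists_num n hpos
        have hlen : w.length ≤ L := by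
          have h1 := num_ge w
          rw [hw] at h1
          have h2 : 2 ^ (w.length + 1) < 2 ^ (L + 2) := by
            rw [pow_succ]
            omega
          have h3 := (Nat.pow_lt_pow_iff_right (by norm_num : 1 < 2)).1 h2
          omega
        have h4 := tail_word L w hlen m
        rw [(tl_eq (true :: w)).1] at h4
        have h5 : num (true :: w) = t := by simp only [num]; omega
        rw [h5] at h4
        exact h4

/-- reflection -/
theorem reflect (K : ℕ) : ∀ n, 2 ^ K ≤ n → n ≤ 2 ^ (K + 1) → ∀ d, P (3 * 2 ^ K - n) d = P n (-d) := by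
  induction K with
  | zero =>
    intro n h1 h2 d
    have h : n = 1 ∨ n = 2 := by
      simp at h1 h2
      omega
    have e2 : ∀ d, P 2 d = if d = 0 then 1 else 0 := by
      intro d
      rw [show (2 : ℕ) = 2 * 1 by norm_num, P_even 1 le_rfl, P_one]
    rcases h with rfl | rfl
    · simp only [pow_zero, mul_one, Nat.reduceSub]
      rw [e2, P_one]
      simp
    · simp only [pow_zero, mul_one, Nat.reduceSub]
      rw [e2, P_one]
      simp
  | succ K ih =>
    intro n h1 h2 d
    have hK : 0 < 2 ^ K := by positivity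
    have hp1 : 2 ^ (K + 1) = 2 * 2 ^ K := by rw [pow_succ]; ring
    have hp2 : 2 ^ (K + 1 + 1) = 4 * 2 ^ K := by rw [pow_succ, pow_succ]; ring
    rw [hp1] at ih
    rw [hp1] at h1 ⊢
    rw [hp2] at h2
    rcases Nat.even_or_odd' n with ⟨k, hk | hk⟩
    · rw [show 3 * (2 * 2 ^ K) - n = 2 * (3 * 2 ^ K - k) by omega, P_even _ (by omega), hk,
        P_even _ (by omega)]
      exact ih k (by omega) (by omega) d
    · rw [show 3 * (2 * 2 ^ K) - n = 2 * (3 * 2 ^ K - (k + 1)) + 1 by omega, P_odd _ (by omega), hk,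
        P_odd _ (by omega), ih (k + 1) (by omega) (by omega),
        show 3 * 2 ^ K - (k + 1) + 1 = 3 * 2 ^ K - k by omega, ih k (by omega) (by omega),
        show -(d - 1) = -d + 1 by ring, show -(d + 1) = -d - 1 by ring]
      ring

theorem tails' (t : ℕ) (ht : 1 ≤ t) (L : ℕ) (hL : t < 2 ^ (L + 2)) (m : ℕ) :
    1 / 2 + Q m L / 2 ≤ ∑' j : ℕ, P t ((m : ℤ) - j) := by
  obtain ⟨K, hK1, hK2⟩ : ∃ K, 2 ^ K ≤ t ∧ t < 2 ^ (K + 1) :=
    ⟨Nat.log 2 t, Nat.pow_log_le_self 2 (by omega), Nat.lt_pow_succ_log_self (by norm_num) t⟩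
  have hKL : K + 1 ≤ L + 2 := by
    have : 2 ^ K < 2 ^ (L + 2) := by omega
    have := (Nat.pow_lt_pow_iff_right (by norm_num : 1 < 2)).1 this
    omega
  have hp1 : 2 ^ (K + 1) = 2 * 2 ^ K := by rw [pow_succ]; ring
  have hle : 2 ^ (K + 1) ≤ 2 ^ (L + 2) := Nat.pow_le_pow_right (by norm_num) hKL
  have h := tails (3 * 2 ^ K - t) (by omega) L (by omega) m
  refine h.trans (le_of_eq ?_)
  unfold T
  refine tsum_congr fun j => ?_
  rw [reflect K t hK1 (by omega)]
  congr 1
  ring

theorem hasSum_P (t : ℕ) (ht : 1 ≤ t) : HasSum (P t) 1 := by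
  induction t using Nat.strong_induction_on with
  | _ t ih =>
    rcases Nat.even_or_odd' t with ⟨n, hn | hn⟩
    · have : P t = P n := by
        funext d
        rw [hn, P_even n (by omega)]
      rw [this]
      exact ih n (by omega) (by omega)
    · rcases Nat.eq_zero_or_pos n with h0 | hpos
      · have ht1 : t = 1 := by omega
        have : P t = fun d => if d = 0 then 1 else 0 := by
          funext d
          rw [ht1, P_one]
        rw [this]
        exact hasSum_ite_eq 0 1
      · have h1 := ((Equiv.subRight (1 : ℤ)).hasSum_iff).2 (ih n (by omega) (by omega))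
        have h2 := ((Equiv.addRight (1 : ℤ)).hasSum_iff).2 (ih (n + 1) (by omega) (by omega))
        have h3 := (h1.div_const 2).add (h2.div_const 2)
        have : P t = fun d => (P n ∘ (Equiv.subRight (1 : ℤ))) d / 2 + (P (n + 1) ∘ (Equiv.addRight (1 : ℤ))) d / 2 := by
          funext d
          rw [hn, P_odd n hpos]
          rfl
        rw [this]
        norm_num at h3
        exact h3

theorem unique (P' : ℕ → ℤ → ℝ) (h1 : ∀ d, P' 1 d = if d = 0 then 1 else 0)
    (h2 : ∀ n, 1 ≤ n → ∀ d, P' (2 * n) d = P' n d)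
    (h3 : ∀ n, 1 ≤ n → ∀ d, P' (2 * n + 1) d = P' n (d - 1) / 2 + P' (n + 1) (d + 1) / 2)
    (t : ℕ) (ht : 1 ≤ t) : P' t = P t := by
  induction t using Nat.strong_induction_on with
  | _ t ih =>
    rcases Nat.even_or_odd' t with ⟨n, hn | hn⟩
    · funext d
      rw [hn, P_even n (by omega), h2 n (by omega), ih n (by omega) (by omega)]
    · rcases Nat.eq_zero_or_pos n with h0 | hpos
      · have ht1 : t = 1 := by omega
        funext d
        rw [ht1, P_one, h1]
      · funext d
        rw [hn, P_odd n hpos, h3 n hpos, ih n (by omega) hpos, ih (n + 1) (by omega) (by omega)]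

end Pool.Agent.W5h30.MED
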